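import Pool.Agent.Lib.MP_1f66ea_an.Final

/-!
# The `C⁰` estimate for the `L_p` `q`-th dual Minkowski problem fails whenever `n + p > 4`
-/

namespace Pool.Agent.Results.MP_1f66ea_an.WedgeBodies

open Pool.Agent.Lib.MP_1f66ea_an
open scoped RealInnerProductSpace ENNReal
open Set MeasureTheory Metric

/-- Two orthonormal vectors of `ℝⁿ`, `n ≥ 2`. -/
noncomputable def frame (n : ℕ) (hn : 2 ≤ n) : Frame (EuclideanSpace ℝ (Fin n)) where
  e0 := EuclideanSpace.single ⟨0, by omega⟩ 1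
  e1 := EuclideanSpace.single ⟨1, by omega⟩ 1
  h00 := by rw [EuclideanSpace.inner_single_left]; simp
  h11 := by rw [EuclideanSpace.inner_single_left]; simp
  h01 := by rw [EuclideanSpace.inner_single_left]; simp

/-- For every dimension `n ≥ 5`, every `p ∈ (-1, 1)` and every `q > n - 1` the `C⁰` estimate fails
for all sufficiently large bounds `lam`: there are convex bodies containing the origin whose `L_p`
`q`-th dual curvature measure lies between `lam⁻¹` and `lam` times the spherical measure, with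
arbitrarily large support function. In particular the estimate does not hold for all `n`, `p`, `q`,
`lam`. -/
theorem result :
    (∀ (n : ℕ) (p q : ℝ), 5 ≤ n → -1 < p → p < 1 → (n : ℝ) - 1 < q →
      ∃ lam₀ : ℝ, 1 < lam₀ ∧ ∀ lam, lam₀ ≤ lam → ∀ C : ℝ,
        ∃ (K : Set (EuclideanSpace ℝ (Fin n)))
          (μ : Measure (sphere (0 : EuclideanSpace ℝ (Fin n)) 1)),
          IsBody K ∧ IsDualCurvature q K μ ∧ TwoSided lam (lpWeight p K μ) ∧
            ∃ w ∈ sphere (0 : EuclideanSpace ℝ (Fin n)) 1, C < supportFn K w) ∧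
    ¬ ∀ (n : ℕ) (p q lam : ℝ), 2 ≤ n → -1 < p → p < 1 → (n : ℝ) - 1 < q → 1 < lam →
      C0Estimate n p q lam := by
  have key : ∀ (n : ℕ) (p q : ℝ), 5 ≤ n → -1 < p → p < 1 → (n : ℝ) - 1 < q →
      ∃ lam₀ : ℝ, 1 < lam₀ ∧ ∀ lam, lam₀ ≤ lam → ∀ C : ℝ,
        ∃ (K : Set (EuclideanSpace ℝ (Fin n)))
          (μ : Measure (sphere (0 : EuclideanSpace ℝ (Fin n)) 1)),
          IsBody K ∧ IsDualCurvature q K μ ∧ TwoSided lam (lpWeight p K μ) ∧
            ∃ w ∈ sphere (0 : EuclideanSpace ℝ (Fin n)) 1, C < supportFn K w := by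
    intro n p q hn hp hp1 hq
    obtain ⟨m, rfl⟩ : ∃ m, n = m + 3 := ⟨n - 3, by omega⟩
    have hm : (5 : ℝ) ≤ ((m + 3 : ℕ) : ℝ) := by exact_mod_cast hn
    obtain ⟨lam₀, h1, h2⟩ := counterexample (V := EuclideanSpace ℝ (Fin (m + 3))) m (by simp)
      (frame (m + 3) (by omega)) p q (by linarith) (by linarith) (by linarith)
    refine ⟨lam₀, h1, fun lam hlam C => ?_⟩
    obtain ⟨K, μ, hK, hμ, hT, hw⟩ := h2 C
    refine ⟨K, μ, hK, hμ, fun ω hω => ?_, hw⟩
    have h0 : 0 < lam₀ := by linarith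
    refine ⟨le_trans ?_ (hT ω hω).1, (hT ω hω).2.trans ?_⟩
    · gcongr
    · gcongr
  refine ⟨key, fun h => ?_⟩
  obtain ⟨lam₀, h1, h2⟩ := key 5 0 5 (by norm_num) (by norm_num) (by norm_num) (by norm_num)
  obtain ⟨C, _, hC⟩ := h 5 0 5 lam₀ (by norm_num) (by norm_num) (by norm_num) (by norm_num) h1
  obtain ⟨K, μ, hK, hμ, hT, w, hw, hlt⟩ := h2 lam₀ le_rfl C
  exact absurd ((hC K μ hK hμ hT).1 w hw) (not_le.2 hlt)

end Pool.Agent.Results.MP_1f66ea_an.WedgeBodies
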